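import Pool.Agent.H.MP_102303_co.Main

set_option autoImplicit false

namespace Pool.Agent.Results.MP_102303_co.RealPOT

theorem result : ∃ n : ℕ, n ≤ 15 ∧ ∃ A : Matrix (Fin n) (Fin n) ℝ, A.PosSemidef ∧
    ∃ (μ : ℝ) (z : Equiv.Perm (Fin n) → ℝ), z ≠ 0 ∧
      (Matrix.of fun σ τ : Equiv.Perm (Fin n) => ∏ i, A (σ i) (τ i)).mulVec z = μ • z ∧
      A.permanent < μ :=
  ⟨12, by norm_num, Pool.Agent.H.MP_102303_co.main⟩

end Pool.Agent.Results.MP_102303_co.RealPOT
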